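import Pool.Agent.Q266.HamAcc

/-!
Vertex-transitive families blocking all `(2,2)`-acceptable Hamilton cycles have cubic size.
-/

set_option autoImplicit false

namespace Pool.Agent.Results.MP_ef0d97_co.CubicOrder

open Pool.Agent.Q266.HamAcc

/-- `v n` has order of magnitude `n ^ 3`; in particular `v n / n ^ 2` is unbounded. -/
theorem result : ∃ c : ℝ, 0 < c ∧ ∀ n : ℕ, 4 ≤ n →
    c * (n : ℝ) ^ 3 ≤ (v n : ℝ) ∧ (v n : ℝ) ≤ (n : ℝ) ^ 3 := by
  refine ⟨1 / 1000000, by norm_num, fun n hn => ?_⟩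
  obtain ⟨h1, h2⟩ := v_bounds n hn
  have h3 : ((n : ℝ)) ^ 3 ≤ 1000000 * (v n : ℝ) := by exact_mod_cast h1
  refine ⟨by linarith, by exact_mod_cast h2⟩

end Pool.Agent.Results.MP_ef0d97_co.CubicOrder
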